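import Pool.Agent.NH4.CF.Br

/-!
# The rank conjecture for `y² + D y = x³` over all number fields, Galois or not, containing `ω` or not,
# inside infinite non-abelian `3`-towers

`E_D : y² + D y = x³`, `3`-isogenous to `x³ + y³ = D`. `D` is cube-free, prime to `3`, not `±1` modulo
`9`, exactly one prime `≡ 2 mod 3` divides `D`, and `D` has no splitting (a condition on cubic residues,
by the starting files equivalent to: `E_D(ℚ)` is finite and `Ш(E_D / ℚ)[3^∞] = 0`). The proportion of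
these `D` among the squarefree numbers in the class tends to `∏ (1 - 3^{-i}) = 0.5601...`.

`K` is the field of the cube roots of unity, embedded in `ℂ`. A set `R` of primes of `𝓞 K` is admissible
for `D` if all `l ∈ R` are `≡ 1 mod 3`, of norm `≡ 1 mod 9`, prime to `D`, modulo `l` all elements of `R`
and all primary primes of `D` but exactly one are cubes. `Ω(R) = K(∛l : l ∈ R)`. We prove: for every
admissible `R` and every number field `F` inside `Ω(R)` the curve `E_D` satisfies the rank conjecture over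
`F`: `L(E_D / F, s)`, with all Euler factors, from minimal models, has a meromorphic continuation that is
analytic and not zero at `s = 1`, and `E_D(F)` is finite. There is an infinite admissible `R` that is stable
under the complex conjugation. Then `Ω(R)` is Galois and not abelian over `ℚ`, and for every `l ∈ R` of norm
`p` it contains the pure cubic field `ℚ(∛p)`, the cyclic cubic field of conductor `p`, generated by the
roots of `x³ - 3 p x - p t`, `4 p = t² + 27 u²`, and so all composita of such fields, and many fields that are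
not Galois over `ℚ` and do not contain `ω`.

The proof. The nonvanishing over `K` for the twists by leaves of the graph of cubic residues and the
descent are in the starting files (`Pool/Agent/R432`). New: a set of leaves stable under the conjugation
(the symbol `(l̄ / l)` is `1` for `l` of norm `1` modulo `9`); the `L`-function of the curve over a field
`F` that does not contain `ω` is the product over the places of `F(ω)` of the factors
`(1 - ψ(v) q_v^{-s})⁻¹`, where `ψ` is a Hecke character, and for a field that contains `ω` it is the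
product of such a product and of its conjugate; these products are products of the `L`-functions of the twists
over `K`.
-/

set_option autoImplicit false

namespace Pool.Agent.Results.MP_ae0bd0_nt.AllFieldsInCubicTowers

open NumberField IsDedekindDomain
open scoped Classical

/-- The curve `E_D : y² + D y = x³` over `F`. -/
def curve (D : ℕ) (F : Type) [Field F] : WeierstrassCurve F := ⟨0, 0, (D : F), 0, 0⟩

/-- `D` is cube-free, not divisible by `3`, not `±1` modulo `9`, and divisible by exactly one prime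
that is `2` modulo `3`. -/
def InClass (D : ℕ) : Prop :=
  D ≠ 0 ∧ (∀ p : ℕ, p.Prime → ¬ p ^ 3 ∣ D) ∧ ¬ 3 ∣ D ∧ D % 9 ≠ 1 ∧ D % 9 ≠ 8 ∧
    ∃ q : ℕ, q.Prime ∧ q % 3 = 2 ∧ q ∣ D ∧ ∀ p : ℕ, p.Prime → p ∣ D → p ≠ q → p % 3 = 1

/-- In every factorization of `D` in coprime factors `d₀ d₁ d₂` for which `d₁ d₂²`, `d₂ d₀²`,
`d₀ d₁²` are cubes modulo the primes dividing `d₀`, `d₁`, `d₂` respectively, two factors are `1`. -/
def HasNoSplitting (D : ℕ) : Prop :=
  ∀ d : ZMod 3 → ℕ, ∏ c, d c = D → (∀ c c', c ≠ c' → Nat.Coprime (d c) (d c')) →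
    (∀ (c : ZMod 3) (p : ℕ), p.Prime → p ∣ d c →
      ∃ x : ℤ, (p : ℤ) ∣ (d (c + 1) : ℤ) * (d (c + 2) : ℤ) ^ 2 - x ^ 3) →
    ∃ c, ∀ c', c' ≠ c → d c' = 1

section primes

variable {K : Type} [Field K] [NumberField K]

/-- `x` is a cube modulo `l`. -/
def IsCubeMod (x l : 𝓞 K) : Prop := ∃ y : 𝓞 K, l ∣ x - y ^ 3

/-- `l` is a prime element, `1` modulo `3`, of norm `1` modulo `9`, it does not divide `D`, and
exactly one of the prime elements `p = 1` modulo `3` that divide `D` is not a cube modulo `l`. -/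
def Attached (D : ℕ) (l : 𝓞 K) : Prop :=
  Prime l ∧ (3 : 𝓞 K) ∣ l - 1 ∧ (9 : ℤ) ∣ Algebra.norm ℤ l - 1 ∧ ¬ l ∣ (D : 𝓞 K) ∧
    ∃! p : 𝓞 K, Prime p ∧ (3 : 𝓞 K) ∣ p - 1 ∧ p ∣ (D : 𝓞 K) ∧ ¬ IsCubeMod p l

/-- Each `l ∈ R` is attached to `D`, and the other elements of `R` are cubes modulo `l`. -/
def Admissible (D : ℕ) (R : Set (𝓞 K)) : Prop :=
  (∀ l ∈ R, Attached D l) ∧ ∀ l ∈ R, ∀ m ∈ R, m ≠ l → IsCubeMod m l

/-- `Ω(R) = K(∛l : l ∈ R)`, the subfield of `ℂ` generated by the image of `K` and by all cube roots of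
the elements of `R`. -/
noncomputable def Ω (σ : K →+* ℂ) (R : Set (𝓞 K)) : Subfield ℂ :=
  Subfield.closure {z | (∃ k : K, z = σ k) ∨ ∃ l ∈ R, z ^ 3 = σ (l : K)}

end primes

section field

variable {L : Type} [Field L] [NumberField L]

/-- `V v` is, for every prime `v`, an integral model of `E` with discriminant minimal at `v`. -/
def MinimalModels (E : WeierstrassCurve L)
    (V : HeightOneSpectrum (𝓞 L) → WeierstrassCurve (𝓞 L)) : Prop :=
  ∀ v : HeightOneSpectrum (𝓞 L),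
    (∃ C : WeierstrassCurve.VariableChange L, C • (V v).map (algebraMap (𝓞 L) L) = E) ∧
    ∀ W : WeierstrassCurve (𝓞 L),
      (∃ C : WeierstrassCurve.VariableChange L, C • W.map (algebraMap (𝓞 L) L) = E) →
        ∀ n : ℕ, (V v).Δ ∈ v.asIdeal ^ n → W.Δ ∈ v.asIdeal ^ n

/-- The Euler factor at `v`, computed from the reduction of `V v`: `(1 - a_v q_v^{-s} + q_v^{1-2s})⁻¹` if
the reduction is good and `(1 - a_v q_v^{-s})⁻¹` if it is bad, where `a_v` is `q_v` minus the number of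
affine points of the reduction (so `a_v = 1`, `-1`, `0` in the cases of split multiplicative, non-split
multiplicative and additive reduction). -/
noncomputable def factor (V : HeightOneSpectrum (𝓞 L) → WeierstrassCurve (𝓞 L)) (s : ℂ)
    (v : HeightOneSpectrum (𝓞 L)) : ℂ :=
  (1 - ((Ideal.absNorm v.asIdeal : ℂ)
        - (Nat.card {xy : (𝓞 L ⧸ v.asIdeal) × (𝓞 L ⧸ v.asIdeal) //
            ((V v).map (Ideal.Quotient.mk v.asIdeal)).toAffine.Equation xy.1 xy.2} : ℂ))
        * (Ideal.absNorm v.asIdeal : ℂ) ^ (-s)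
    + (if (V v).Δ ∈ v.asIdeal then 0 else (Ideal.absNorm v.asIdeal : ℂ))
        * (Ideal.absNorm v.asIdeal : ℂ) ^ (-2 * s))⁻¹

/-- The rank part of the conjecture holds for `E` over `L`, with order of vanishing and rank zero: `E`
has minimal models; the Euler product over all primes converges for `Re s > 3/2`, whatever the minimal
models, to a function that has a meromorphic continuation `Λ` to `ℂ`; `Λ` is analytic and not zero at
`s = 1`; the group `E(L)` is finite, and its rank is the order of `Λ` at `1`. -/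
def RankZero (E : WeierstrassCurve L) : Prop :=
  (∃ V : HeightOneSpectrum (𝓞 L) → WeierstrassCurve (𝓞 L), MinimalModels E V) ∧
  Finite E.toAffine.Point ∧
  ∃ Λ : ℂ → ℂ, MeromorphicOn Λ Set.univ ∧
    (∀ V : HeightOneSpectrum (𝓞 L) → WeierstrassCurve (𝓞 L), MinimalModels E V →
      ∀ s : ℂ, 3 / 2 < s.re → HasProd (factor V s) (Λ s)) ∧
    AnalyticAt ℂ Λ 1 ∧ Λ 1 ≠ 0 ∧ analyticOrderAt Λ 1 = Module.finrank ℤ E.toAffine.Point

end field

section proof

set_option linter.unusedSectionVars false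

open Pool.Agent.H341R2.EC (IsModel IsMinAt red aff trc dlt)
open Pool.Agent.R433.MD (lf)
open Pool.Agent.H921R2.TatePole (nm two_le_nm)

section bridge
variable {K : Type} [Field K] [NumberField K]

theorem isModel_iff (E : WeierstrassCurve K) (W : WeierstrassCurve (𝓞 K)) :
    (∃ C : WeierstrassCurve.VariableChange K, C • W.map (algebraMap (𝓞 K) K) = E) ↔
      IsModel E W := by
  constructor
  · rintro ⟨C, hC⟩
    exact ⟨C⁻¹, by rw [← hC, inv_smul_smul]⟩
  · rintro ⟨C, hC⟩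
    exact ⟨C⁻¹, by rw [← hC, inv_smul_smul]⟩

theorem minimalModels_iff (E : WeierstrassCurve K)
    (V : HeightOneSpectrum (𝓞 K) → WeierstrassCurve (𝓞 K)) :
    MinimalModels E V ↔ ∀ v, IsMinAt E v (V v) := by
  unfold MinimalModels IsMinAt
  simp only [isModel_iff]

theorem factor_eq (V : HeightOneSpectrum (𝓞 K) → WeierstrassCurve (𝓞 K)) (s : ℂ)
    (v : HeightOneSpectrum (𝓞 K)) : factor V s v = (lf V s v)⁻¹ := by
  unfold factor
  congr 1
  unfold lf trc dlt
  have h0 : ((nm v : ℕ) : ℂ) ≠ 0 := by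
    have := two_le_nm v
    exact_mod_cast (by omega : nm v ≠ 0)
  have e1 : Nat.card {xy : (𝓞 K ⧸ v.asIdeal) × (𝓞 K ⧸ v.asIdeal) //
      ((V v).map (Ideal.Quotient.mk v.asIdeal)).toAffine.Equation xy.1 xy.2} =
      aff (red v (V v)) := by
    unfold aff red
    refine Nat.card_congr (Equiv.subtypeEquivRight fun xy => ?_)
    rw [WeierstrassCurve.Affine.equation_iff]
  have e2 : ((nm v : ℕ) : ℂ) ^ (1 - 2 * s) = ((nm v : ℕ) : ℂ) * ((nm v : ℕ) : ℂ) ^ (-2 * s) := by
    rw [sub_eq_add_neg, Complex.cpow_add _ _ h0, Complex.cpow_one]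
    congr 2
    ring
  have e3 : (Ideal.absNorm v.asIdeal : ℂ) = ((nm v : ℕ) : ℂ) := rfl
  rw [e1, e2, e3]
  push_cast
  split_ifs with h
  · ring
  · ring

theorem rankZero_of {D : ℕ} (hD : D ≠ 0) (h : Pool.Agent.NH4.CF.RZ K D) :
    RankZero (curve D K) := by
  obtain ⟨hfin, B, hB, hBD, G, hG, hG1, hP⟩ := h
  obtain ⟨Λ, h7, h8, h9, h10⟩ := Pool.Agent.R432.JG.full (L := K) hB hBD hG hG1 hP
  obtain ⟨V0, hV0⟩ := Pool.Agent.R433.MD.exists_minimal (curve D K) (Pool.Agent.R432.JG.ell hD)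
  have hfin' : Finite (curve D K).toAffine.Point := hfin
  refine ⟨⟨V0, (minimalModels_iff _ _).2 hV0⟩, hfin', Λ, h7, fun V hV s hs => ?_, h8, h9, ?_⟩
  · have hV' := (minimalModels_iff _ _).1 hV
    rw [h10 V hV' s hs]
    exact ((Pool.Agent.R433.MD.hasProd_lf _ (Pool.Agent.R432.JG.ell hD) V hV' hs).1).congr_fun
      fun v => factor_eq V s v
  · rw [h8.analyticOrderAt_eq_zero.2 h9]
    have h2 : Module.rank ℤ (curve D K).toAffine.Point = 0 := by
      rw [rank_eq_zero_iff]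
      intro x
      exact ⟨(Nat.card (curve D K).toAffine.Point : ℤ),
        by exact_mod_cast Nat.card_pos.ne', by rw [natCast_zsmul]; exact card_nsmul_eq_zero'⟩
    have h3 : Module.finrank ℤ (curve D K).toAffine.Point = 0 := by
      rw [Module.finrank]
      simp only [h2, map_zero]
    rw [h3]
    rfl

end bridge

open Pool.Agent.Y692.QS (Ei w nr)
open Pool.Agent.Y715.T.Rec (cs)
open Pool.Agent.Y715.T.RecG (Pq)
open Pool.Agent.Y703.CT (Dt pD Ker Cls NoSplit)
open Pool.Agent.R432.C (pq_dvd)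
open Pool.Agent.NH4.CF (Adm)

variable {K : Type} [Field K] [NumberField K]

theorem cls_of {D : ℕ} (h : InClass D) : Cls D := ⟨⟨h.1, h.2.2.1, h.2.1⟩, h.2.2.2.1, h.2.2.2.2.1,
  h.2.2.2.2.2⟩

theorem cls_iff {D : ℕ} : InClass D ↔ Cls D :=
  ⟨cls_of, fun h => ⟨h.1.1, h.1.2.2, h.1.2.1, h.2.1, h.2.2.1, h.2.2.2⟩⟩

theorem isCubeMod_iff (j : Ei ≃+* 𝓞 K) {x l : Ei} (hl : Pq l) (hx : ¬ l ∣ x) :
    IsCubeMod (j x) (j l) ↔ cs l x = 0 := by
  rw [Pool.Agent.Y715.T.RecG.cs_zero_iff hl.prime hl.norm hx]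
  constructor
  · rintro ⟨y, hy⟩
    refine ⟨j.symm y, ?_⟩
    rw [← map_dvd_iff j, map_sub, map_pow, RingEquiv.apply_symm_apply]
    exact hy
  · rintro ⟨y, hy⟩
    refine ⟨j y, ?_⟩
    rw [← map_pow, ← map_sub, map_dvd_iff j]
    exact hy

theorem three_iff (j : Ei ≃+* 𝓞 K) (x : Ei) : (3 : 𝓞 K) ∣ j x - 1 ↔ (3 : Ei) ∣ x - 1 := by
  have : j x - 1 = j (x - 1) := by rw [map_sub, map_one]
  rw [this, ← map_ofNat j 3, map_dvd_iff j]

theorem pq_iff (j : Ei ≃+* 𝓞 K) (x : Ei) : (Prime (j x) ∧ (3 : 𝓞 K) ∣ j x - 1) ↔ Pq x := by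
  rw [three_iff, MulEquiv.prime_iff j]
  exact ⟨fun h => ⟨h.1, h.2⟩, fun h => ⟨h.prime, h.three⟩⟩

variable {n : ℕ} {π : Fin n → Ei} {e : Fin n → ZMod 3} {D : ℕ}

theorem pq_factor (hdt : Dt π e) (hDp : (D : Ei) = pD π e ∨ (D : Ei) = -pD π e) {p : Ei}
    (hp : Pq p) : p ∣ (D : Ei) ↔ ∃ i, p = π i := by
  rw [Pool.Agent.Y405.CT.dvd_D_iff hDp]
  constructor
  · intro h
    obtain ⟨i, -, hi⟩ := (hp.prime.dvd_finsetProd_iff _).1 h
    exact ⟨i, pq_dvd hp (hdt.pq i) (hp.prime.dvd_of_dvd_pow hi)⟩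
  · rintro ⟨i, rfl⟩
    exact Pool.Agent.Y405.CT.pi_dvd_part hdt Finset.univ (Finset.mem_univ i)

theorem dvd_nat_iff (j : Ei ≃+* 𝓞 K) (x : Ei) : j x ∣ (D : 𝓞 K) ↔ x ∣ (D : Ei) := by
  rw [← map_natCast j D, map_dvd_iff j]

theorem attached_iff (j : Ei ≃+* 𝓞 K) (hj : ∀ z : Ei, Algebra.norm ℤ (j z) = nr z)
    (hdt : Dt π e) (hDp : (D : Ei) = pD π e ∨ (D : Ei) = -pD π e) (l : Ei) :
    Attached D (j l) ↔ Pq l ∧ nr l % 9 = 1 ∧ (∀ i, l ≠ π i) ∧
      ∃ i, cs l (π i) ≠ 0 ∧ ∀ k, k ≠ i → cs l (π k) = 0 := by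
  have h9 : (9 : ℤ) ∣ Algebra.norm ℤ (j l) - 1 ↔ nr l % 9 = 1 := by
    rw [hj]
    omega
  have hinj : Function.Injective π := by
    intro a b hab
    by_contra hne
    exact hdt.nd a b hne (by rw [hab])
  constructor
  · rintro ⟨h1, h2, h3, h4, p, ⟨hp1, hp2, hp3, hp4⟩, huniq⟩
    have hl := (pq_iff j l).1 ⟨h1, h2⟩
    have hne : ∀ i, l ≠ π i := by
      intro i hi
      apply h4
      rw [dvd_nat_iff]
      exact (pq_factor hdt hDp hl).2 ⟨i, hi⟩
    have hnd : ∀ i, ¬ l ∣ π i := fun i hd => hne i (pq_dvd hl (hdt.pq i) hd)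
    obtain ⟨p', rfl⟩ := j.surjective p
    have hp' := (pq_iff j p').1 ⟨hp1, hp2⟩
    obtain ⟨i, rfl⟩ := (pq_factor hdt hDp hp').1 ((dvd_nat_iff j _).1 hp3)
    refine ⟨hl, h9.1 h3, hne, i, fun h => hp4 ((isCubeMod_iff j hl (hnd i)).2 h), fun k hk => ?_⟩
    by_contra hcon
    apply hk
    apply hinj
    apply j.injective
    apply huniq
    refine ⟨((pq_iff j _).2 (hdt.pq k)).1, ((pq_iff j _).2 (hdt.pq k)).2, ?_,
      fun h => hcon ((isCubeMod_iff j hl (hnd k)).1 h)⟩
    rw [dvd_nat_iff]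
    exact (pq_factor hdt hDp (hdt.pq k)).2 ⟨k, rfl⟩
  · rintro ⟨hl, h3, hne, i, hi, hk⟩
    have hnd : ∀ i, ¬ l ∣ π i := fun i hd => hne i (pq_dvd hl (hdt.pq i) hd)
    refine ⟨((pq_iff j _).2 hl).1, ((pq_iff j _).2 hl).2, h9.2 h3, ?_, j (π i), ⟨?_, ?_, ?_, ?_⟩, ?_⟩
    · rw [dvd_nat_iff]
      intro h
      obtain ⟨k, h5⟩ := (pq_factor hdt hDp hl).1 h
      exact hne k h5
    · exact ((pq_iff j _).2 (hdt.pq i)).1
    · exact ((pq_iff j _).2 (hdt.pq i)).2
    · rw [dvd_nat_iff]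
      exact (pq_factor hdt hDp (hdt.pq i)).2 ⟨i, rfl⟩
    · exact fun h => hi ((isCubeMod_iff j hl (hnd i)).1 h)
    · rintro q ⟨hq1, hq2, hq3, hq4⟩
      obtain ⟨q', rfl⟩ := j.surjective q
      have hq' := (pq_iff j q').1 ⟨hq1, hq2⟩
      obtain ⟨k, rfl⟩ := (pq_factor hdt hDp hq').1 ((dvd_nat_iff j _).1 hq3)
      by_contra hcon
      apply hq4
      rw [isCubeMod_iff j hl (hnd k)]
      exact hk k fun h => hcon (by rw [h])

theorem admissible_iff (j : Ei ≃+* 𝓞 K) (hj : ∀ z : Ei, Algebra.norm ℤ (j z) = nr z)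
    (hdt : Dt π e) (hDp : (D : Ei) = pD π e ∨ (D : Ei) = -pD π e) (R : Set Ei) :
    Admissible D (j '' R) ↔ Adm π R := by
  have hpw : ∀ l m : Ei, Pq l → Pq m → m ≠ l → (IsCubeMod (j m) (j l) ↔ cs l m = 0) :=
    fun l m hl hm hne => isCubeMod_iff j hl fun hd => hne (pq_dvd hl hm hd).symm
  constructor
  · rintro ⟨h1, h2⟩
    have h3 := fun l (hl : l ∈ R) => (attached_iff j hj hdt hDp l).1 (h1 _ (Set.mem_image_of_mem j hl))
    refine ⟨fun l hl => (h3 l hl).1, fun l hl => (h3 l hl).2.1, fun l hl => (h3 l hl).2.2.1,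
      fun l hl => (h3 l hl).2.2.2, fun l hl m hm hlm => ?_⟩
    rw [← hpw l m (h3 l hl).1 (h3 m hm).1 hlm.symm]
    exact h2 _ (Set.mem_image_of_mem j hl) _ (Set.mem_image_of_mem j hm)
      fun h => hlm (j.injective h).symm
  · intro hL
    constructor
    · rintro _ ⟨l', hl', rfl⟩
      exact (attached_iff j hj hdt hDp l').2 ⟨hL.pq l' hl', hL.nine l' hl', hL.ne l' hl', hL.att l' hl'⟩
    · rintro _ ⟨l', hl', rfl⟩ _ ⟨m', hm', rfl⟩ hlm
      have hne : m' ≠ l' := fun h => hlm (by rw [h])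
      rw [hpw l' m' (hL.pq l' hl') (hL.pq m' hm') hne]
      exact hL.pw l' hl' m' hm' hne.symm

theorem Ω_eq (j : Ei ≃+* 𝓞 K) (σ : K →+* ℂ) (R : Set Ei) :
    Ω σ (j '' R) = Pool.Agent.NH4.CF.Om σ ((fun l : Ei => ((j l : 𝓞 K) : K)) '' R) := by
  unfold Ω Pool.Agent.NH4.CF.Om Pool.Agent.NH4.CF.Gen
  congr 1
  ext z
  simp only [Set.mem_ofPred_eq, Set.exists_mem_image]

/-- The existence of the tower. -/
theorem exists_tower (j : Ei ≃+* 𝓞 K) (hj : ∀ z : Ei, Algebra.norm ℤ (j z) = nr z) (σ : K →+* ℂ)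
    (hC : Cls D) (hdt : Dt π e) (hDp : (D : Ei) = pD π e ∨ (D : Ei) = -pD π e) :
    ∃ R : Set (𝓞 K), R.Infinite ∧ Admissible D R ∧
      ∀ l ∈ R, (∃ l' ∈ R, l' ≠ l ∧ σ (l' : K) = (starRingEnd ℂ) (σ (l : K))) ∧
        ∃ (p : ℕ) (t u : ℤ), p.Prime ∧ p % 9 = 1 ∧ Algebra.norm ℤ l = p ∧
          4 * (p : ℤ) = t ^ 2 + 27 * u ^ 2 ∧
          ∀ x : ℂ, (x ^ 3 = (p : ℂ) ∨ x ^ 3 = 3 * (p : ℂ) * x + (p : ℂ) * (t : ℂ)) → x ∈ Ω σ R := by
  have hinj : Function.Injective π := by
    intro a b hab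
    by_contra hne
    exact hdt.nd a b hne (by rw [hab])
  have hne : Nonempty (Fin n) := by
    have hcnt := Pool.Agent.Y274.CT.t_cnt D hC (Fin n) π e hdt hDp
    rw [Fintype.card_fin] at hcnt
    exact ⟨⟨0, by
      have h1 : 0 < D.primeFactors.card := by
        rw [Finset.card_pos]
        obtain ⟨hB, -, -, q, hq, -, hqD, -⟩ := hC
        exact ⟨q, Nat.mem_primeFactors.2 ⟨hq, hqD, hB.1⟩⟩
      omega⟩⟩
  obtain ⟨R, h1, h2, h3⟩ := Pool.Agent.NH4.CF.exists_R hdt.pq
    (Pool.Agent.Y405.CT.exists_sigma hdt hDp) (Classical.arbitrary _) hinj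
  refine ⟨j '' R, h1.image j.injective.injOn, (admissible_iff j hj hdt hDp R).2 h3, ?_⟩
  rintro _ ⟨l, hl, rfl⟩
  let τ : Ei →+* ℂ := σ.comp ((algebraMap (𝓞 K) K).comp (j : Ei →+* 𝓞 K))
  have hτ : ∀ x : Ei, σ ((j x : 𝓞 K) : K) = τ x := fun x => rfl
  obtain ⟨h4, h5⟩ := h2 l hl
  refine ⟨⟨j (star l), Set.mem_image_of_mem j h4, fun h => h5 (j.injective h), ?_⟩, ?_⟩
  · rw [hτ, hτ, Pool.Agent.NH4.CF.conj_tau]
  · have hp := Pool.Agent.NH4.CF.nr_prime (h3.pq l hl) h5
    have hnn : ((nr l).natAbs : ℤ) = nr l :=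
      Int.natAbs_of_nonneg (Pool.Agent.Y692.QS.nr_nonneg l)
    obtain ⟨u, hu⟩ : ∃ u : ℤ, l.im = 3 * u := by
      obtain ⟨c, hc⟩ := (h3.pq l hl).three
      have h6 := congrArg (fun z : Ei => z.im) hc
      have i1 : (1 : Ei).im = 0 := rfl
      have i3 : (3 : Ei).im = 0 := by decide
      have r3 : (3 : Ei).re = 3 := by decide
      simp only [QuadraticAlgebra.im_sub, QuadraticAlgebra.im_mul, i1, i3, r3] at h6
      exact ⟨c.im, by linarith⟩
    refine ⟨(nr l).natAbs, 2 * l.re - l.im, u, hp, ?_, ?_, ?_, ?_⟩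
    · have h6 := h3.nine l hl
      omega
    · rw [hj, hnn]
    · rw [hnn]
      unfold nr
      rw [hu]
      ring
    · intro x hx
      have hlΩ : ∀ z : ℂ, (z ^ 3 = τ l ∨ z ^ 3 = τ (star l)) → z ∈ Ω σ (j '' R) := by
        rintro z (hz | hz)
        · exact Subfield.subset_closure (Or.inr ⟨j l, Set.mem_image_of_mem j hl, hz⟩)
        · exact Subfield.subset_closure (Or.inr ⟨j (star l), Set.mem_image_of_mem j h4, hz⟩)
      have hpτ : (((nr l).natAbs : ℕ) : ℂ) = τ l * τ (star l) := by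
        rw [← map_mul, Pool.Agent.Y692.QS.mul_star, map_intCast]
        have h6 : ((((nr l).natAbs : ℕ) : ℤ) : ℂ) = ((nr l : ℤ) : ℂ) := by rw [hnn]
        rw [← h6, Int.cast_natCast]
      have htτ : ((2 * l.re - l.im : ℤ) : ℂ) = τ l + τ (star l) := by
        rw [← map_add]
        have h6 : l + star l = ((2 * l.re - l.im : ℤ) : Ei) := by
          apply QuadraticAlgebra.ext
          · rw [QuadraticAlgebra.re_add, Pool.Agent.Y692.QS.star_re, QuadraticAlgebra.re_intCast,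
              Int.cast_id]
            ring
          · rw [QuadraticAlgebra.im_add, Pool.Agent.Y692.QS.star_im, QuadraticAlgebra.im_intCast]
            ring
        rw [h6, map_intCast]
      have hw : σ ((j w : 𝓞 K) : K) ∈ Ω σ (j '' R) := Subfield.subset_closure (Or.inl ⟨_, rfl⟩)
      have hz : σ ((j w : 𝓞 K) : K) ^ 2 + σ ((j w : 𝓞 K) : K) + 1 = 0 := by
        rw [← map_pow, ← map_add, ← map_one σ, ← map_add, Pool.Agent.R432.C.om_K j, map_zero]
      obtain ⟨a, ha⟩ := IsAlgClosed.exists_pow_nat_eq (τ l) (n := 3) (by norm_num)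
      obtain ⟨b, hb⟩ := IsAlgClosed.exists_pow_nat_eq (τ (star l)) (n := 3) (by norm_num)
      have haΩ := hlΩ a (Or.inl ha)
      have hbΩ := hlΩ b (Or.inr hb)
      have key : ∀ x y : ℂ, y ∈ Ω σ (j '' R) → x ^ 3 = y ^ 3 → x ∈ Ω σ (j '' R) := by
        intro x y hy hxy
        rcases Pool.Agent.NH4.CF.cube_roots' hz hxy with h | h | h
        · rw [h]; exact hy
        · rw [h]; exact mul_mem hw hy
        · rw [h]; exact mul_mem (pow_mem hw 2) hy
      rcases hx with hx | hx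
      · exact key x (a * b) (mul_mem haΩ hbΩ) (by rw [hx, hpτ, mul_pow, ha, hb])
      · -- the number is `z + p / z` with `z ^ 3 = p l` or `p l̄`
        obtain ⟨d, hd⟩ := IsAlgClosed.exists_pow_nat_eq (x ^ 2 - 4 * (τ l * τ (star l)))
          (n := 2) (by norm_num)
        obtain ⟨z, z', hzz, hzz'⟩ : ∃ z z' : ℂ, z + z' = x ∧ z * z' = τ l * τ (star l) := by
          refine ⟨(x + d) / 2, (x - d) / 2, by ring, ?_⟩
          have : (x + d) / 2 * ((x - d) / 2) = (x ^ 2 - d ^ 2) / 4 := by ring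
          rw [this, hd]
          ring
        rw [hpτ, htτ] at hx
        have hcub : (z ^ 3 - (a ^ 2 * b) ^ 3) * (z ^ 3 - (a * b ^ 2) ^ 3) = 0 := by
          have e1 : z ^ 3 + z' ^ 3 = τ l * τ (star l) * (τ l + τ (star l)) := by
            have : z ^ 3 + z' ^ 3 = (z + z') ^ 3 - 3 * (z * z') * (z + z') := by ring
            rw [this, hzz, hzz', hx]
            ring
          have e2 : z ^ 3 * z' ^ 3 = (τ l * τ (star l)) ^ 3 := by
            rw [← mul_pow, hzz']
          have e3 : (a ^ 2 * b) ^ 3 = τ l * (τ l * τ (star l)) := by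
            rw [mul_pow, ← pow_mul, mul_comm 2 3, pow_mul, ha, hb]
            ring
          have e4 : (a * b ^ 2) ^ 3 = τ (star l) * (τ l * τ (star l)) := by
            rw [mul_pow, ← pow_mul, mul_comm 2 3, pow_mul, ha, hb]
            ring
          rw [e3, e4]
          linear_combination (z ^ 3) * e1 - e2
        have hzΩ : z ∈ Ω σ (j '' R) := by
          rcases mul_eq_zero.1 hcub with h | h
          · exact key z _ (mul_mem (pow_mem haΩ 2) hbΩ) (sub_eq_zero.1 h)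
          · exact key z _ (mul_mem haΩ (pow_mem hbΩ 2)) (sub_eq_zero.1 h)
        have hp0 : τ l * τ (star l) ≠ 0 := by
          rw [← hpτ]
          exact_mod_cast hp.ne_zero
        have hz0 : z ≠ 0 := by
          rintro rfl
          rw [zero_mul] at hzz'
          exact hp0 hzz'.symm
        have hz'Ω : z' ∈ Ω σ (j '' R) := by
          have h6 : z' = (a * b) ^ 3 * z⁻¹ := by
            rw [mul_pow, ha, hb, ← hzz', mul_comm z z', mul_inv_cancel_right₀ hz0]
          rw [h6]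
          exact mul_mem (pow_mem (mul_mem haΩ hbΩ) 3) (inv_mem hzΩ)
        rw [← hzz]
        exact add_mem hzΩ hz'Ω

/-- The theorem for one field. -/
theorem one_field (j : Ei ≃+* 𝓞 K) (hj : ∀ z : Ei, Algebra.norm ℤ (j z) = nr z) (σ : K →+* ℂ)
    (hC : Cls D) (hN : NoSplit D) (hdt : Dt π e) (hDp : (D : Ei) = pD π e ∨ (D : Ei) = -pD π e)
    {R : Set (𝓞 K)} (hR : Admissible D R) {F : Type} [Field F] [NumberField F] (φ : F →+* ℂ)
    (hφ : ∀ x, φ x ∈ Ω σ R) : RankZero (curve D F) := by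
  obtain ⟨R', rfl⟩ : ∃ R' : Set Ei, R = j '' R' :=
    ⟨j ⁻¹' R, (Set.image_preimage_eq R j.surjective).symm⟩
  rw [Ω_eq] at hφ
  exact rankZero_of hC.1.1 (Pool.Agent.NH4.CF.main j σ hC hN hdt hDp
    ((admissible_iff j hj hdt hDp R').1 hR) φ hφ)

end proof

/-- **The rank conjecture over all number fields inside infinite non-abelian `3`-towers.** `K` is the
field of the cube roots of unity. (1) If `D` is in the class and has no splitting, then for every set `R`
admissible for `D` the rank conjecture holds, with rank and order zero, for `E_D : y² + D y = x³` over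
EVERY number field `F` that has an embedding in `ℂ` with image in `Ω(R) = K(∛l : l ∈ R)`; and there is an
infinite admissible `R`, stable under the complex conjugation, such that for every `l ∈ R` the norm of `l` is
a prime `p`, `4 p = t² + 27 u²`, and `Ω(R)` contains the roots of `x³ - p` and of `x³ - 3 p x - p t` (the
cyclic cubic field of conductor `p`). (2) The proportion of the squarefree `D` in the class that have
no splitting tends to `∏ (1 - 3^{-i}) > 0.56`. -/
theorem result (K : Type) [Field K] [NumberField K] [IsCyclotomicExtension {3} ℚ K]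
    (σ : K →+* ℂ) :
    (∀ D : ℕ, InClass D → HasNoSplitting D →
      (∀ R : Set (𝓞 K), Admissible D R → ∀ (F : Type) [Field F] [NumberField F] (φ : F →+* ℂ),
        (∀ x, φ x ∈ Ω σ R) → RankZero (curve D F)) ∧
      ∃ R : Set (𝓞 K), R.Infinite ∧ Admissible D R ∧
        ∀ l ∈ R, (∃ l' ∈ R, l' ≠ l ∧ σ (l' : K) = (starRingEnd ℂ) (σ (l : K))) ∧
          ∃ (p : ℕ) (t u : ℤ), p.Prime ∧ p % 9 = 1 ∧ Algebra.norm ℤ l = p ∧
            4 * (p : ℤ) = t ^ 2 + 27 * u ^ 2 ∧
            ∀ x : ℂ, (x ^ 3 = (p : ℂ) ∨ x ^ 3 = 3 * (p : ℂ) * x + (p : ℂ) * (t : ℂ)) → x ∈ Ω σ R) ∧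
    (0.56 : ℝ) < ∏' i : ℕ, (1 - (1 / 3 : ℝ) ^ (i + 1)) ∧
    Filter.Tendsto (fun X : ℕ =>
      (((Finset.Icc 1 X).filter fun D => Squarefree D ∧ InClass D ∧ HasNoSplitting D).card : ℝ) /
        (((Finset.Icc 1 X).filter fun D => Squarefree D ∧ InClass D).card : ℝ)) Filter.atTop
      (nhds (∏' i : ℕ, (1 - (1 / 3 : ℝ) ^ (i + 1)))) := by
  obtain ⟨⟨j, hj⟩, -⟩ := Pool.Agent.Y455.CTK.jex K
  refine ⟨fun D hD hN => ?_, Pool.Agent.R432.JG.c3_gt, ?_⟩
  · have hC := cls_of hD
    obtain ⟨n, π, e, hdt, hDp⟩ := Pool.Agent.Y274.CT.t_exi D hC.1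
    exact ⟨fun R hR F _ _ φ hφ => one_field j hj σ hC hN hdt hDp hR φ hφ,
      exists_tower j hj σ hC hdt hDp⟩
  · have h := Pool.Agent.Y703.CX.t_DEN
    unfold Pool.Agent.Y703.CX.S_DEN at h
    have e1 : ∀ X : ℕ, (Finset.Icc 1 X).filter (fun D => Squarefree D ∧ InClass D) =
        (Finset.Icc 1 X).filter fun D => Squarefree D ∧ Pool.Agent.Y703.CT.Cls D := fun X =>
      Finset.filter_congr fun D _ => and_congr_right fun _ => cls_iff
    have e2 : ∀ X : ℕ, (Finset.Icc 1 X).filter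
        (fun D => Squarefree D ∧ InClass D ∧ HasNoSplitting D) =
        (Finset.Icc 1 X).filter fun D => Squarefree D ∧ Pool.Agent.Y703.CT.Cls D ∧
          Pool.Agent.Y703.CT.NoSplit D := fun X =>
      Finset.filter_congr fun D _ => and_congr_right fun _ => and_congr cls_iff Iff.rfl
    simp only [e1, e2]
    exact h

end Pool.Agent.Results.MP_ae0bd0_nt.AllFieldsInCubicTowers
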