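import Pool.Agent.NH20.XM.Main

/-!
# The rank conjecture over real multiquadratic fields for the twists of `X_0(15)` and of `X_0(24)`

`C_D : y² = x³ - 12987 D² x - 263466 D³` and `E_D : y² = x³ - 351 D² x + 1890 D³` are the quadratic twists by `D` of
the modular curves `X_0(15)` and `X_0(24)`. These curves have no complex multiplication and are not isogenous
over any field.

The squarefree number `D < 0`, `D ≡ 13, 37 mod 120`, is good if
`C_D(ℚ)` and `E_D(ℚ)` are finite and `Ш(C_D/ℚ)`, `Ш(E_D/ℚ)` have no element of order two; each of these two conditions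
is equivalent to the condition that the class group of `ℚ(√D)` has no element of order four. A pair of `M` and
`K = ℚ(√d_1, …, √d_n)`, of degree `2ⁿ`, is good if all `M ∏_{i ∈ T} d_i` are good up to squares.
* For all good pairs `C_M(K)` and `E_M(K)` are finite, `L(C_M/K, s)` and `L(E_M/K, s)` are entire and not zero at
  `s = 1`: for both curves the rank and the order are zero.
* Let `K = ℚ(√d_1, …, √d_n)` be ANY field of degree `2ⁿ` with `d_i > 0` squarefree, `d_i ≡ 1, 49 mod 120`. Among the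
  squarefree `M < 0`, `M ≡ 13, 37 mod 120`, in the natural order, exactly the proportion `η ^ (2 ^ n)`,
  `η = ∏ (1 - 2 ^ (-i)) = 0.2887…`, makes `(M, K)` good; this is `5/384 η ^ (2 ^ n)` of ALL squarefree integers.
* If `(M, K)` is good, then `(M, K(√D))` is good for exactly the proportion `η ^ (2 ^ n)` of the squarefree
  `D > 0`, `D ≡ 1, 49 mod 120`.
-/

set_option autoImplicit false

open NumberField IsDedekindDomain Filter Topology WeierstrassCurve

namespace Pool.Agent.Results.MP_ae0bd0_nt.TwoCurvesMultiquadratic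

/-- coefficients of `C_D : y² = x³ + A15 D x + B15 D`, the twist of `X_0(15)` -/
def A15 (D : ℤ) : ℤ := -12987 * D ^ 2

/-- coefficients of `C_D : y² = x³ + A15 D x + B15 D`, the twist of `X_0(15)` -/
def B15 (D : ℤ) : ℤ := -263466 * D ^ 3

/-- coefficients of `E_D : y² = x³ + A24 D x + B24 D`, the twist of `X_0(24)` -/
def A24 (D : ℤ) : ℤ := -351 * D ^ 2

/-- coefficients of `E_D : y² = x³ + A24 D x + B24 D`, the twist of `X_0(24)` -/
def B24 (D : ℤ) : ℤ := 1890 * D ^ 3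

/-- the curve `y² = x³ + a x + b` over `ℚ` -/
def curve (a b : ℤ) : WeierstrassCurve ℚ :=
  { a₁ := 0, a₂ := 0, a₃ := 0, a₄ := (a : ℚ), a₆ := (b : ℚ) }

/-- for `y² = x³ + a x + b`: there are finitely many rational points and `Ш` has no element of order two -/
def RankZeroShaTwo (a b : ℤ) : Prop :=
  Finite (curve a b).toAffine.Point ∧
    ∀ x : Pool.Agent.TH841.SH.D.Sha (curve a b), 2 • x = 0 → x = 0

/-- `K` is the quadratic field `ℚ(√D)` -/
def IsQuadratic (D : ℤ) (K : Type) [Field K] [NumberField K] : Prop :=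
  Module.finrank ℚ K = 2 ∧ ∃ a : K, a ^ 2 = (D : K)

/-- the class group of `ℚ(√D)` has no element of order four -/
def NoFour (D : ℤ) : Prop := ∀ (K : Type) [Field K] [NumberField K], IsQuadratic D K →
  ∀ c : ClassGroup (𝓞 K), c ^ 4 = 1 → c ^ 2 = 1

/-- the class of the numbers `D` and `M` -/
def InClass (D : ℤ) : Prop := Squarefree D ∧ D < 0 ∧ (D % 120 = 13 ∨ D % 120 = 37)

/-- the good numbers -/
def Good (D : ℤ) : Prop :=
  InClass D ∧ RankZeroShaTwo (A15 D) (B15 D) ∧ RankZeroShaTwo (A24 D) (B24 D)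

/-- `ℚ(√d_1, …, √d_n)` has degree `2ⁿ` -/
def Indep {n : ℕ} (d : Fin n → ℤ) : Prop :=
  ∀ T : Finset (Fin n), T.Nonempty → ¬ IsSquare (∏ i ∈ T, d i)

/-- `ℚ(√d_1, …, √d_n)` has degree `2ⁿ` and all numbers `M ∏_{i ∈ T} d_i` are good up to squares -/
def GoodPair {n : ℕ} (M : ℤ) (d : Fin n → ℤ) : Prop :=
  Indep d ∧ ∀ T : Finset (Fin n), ∃ D k : ℤ, Good D ∧ k ≠ 0 ∧ M * ∏ i ∈ T, d i = D * k ^ 2

/-- `K = ℚ(√d_1, …, √d_n)` -/
def IsMultiquadratic {n : ℕ} (d : Fin n → ℤ) (K : Type) [Field K] [NumberField K] : Prop :=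
  ∃ x : Fin n → K, (∀ i, x i ^ 2 = (d i : K)) ∧ IntermediateField.adjoin ℚ (Set.range x) = ⊤

/-- the group of the points of `y² = x³ + a x + b` over `K` -/
abbrev EK (K : Type) [Field K] (a b : ℤ) : Type :=
  WeierstrassCurve.Affine.Point (WeierstrassCurve.toAffine
    ({ a₁ := 0, a₂ := 0, a₃ := 0, a₄ := (a : K), a₆ := (b : K) } : WeierstrassCurve K))

/-- the number `q_v` of elements of the residue field of a finite place `v` of `K` -/
noncomputable def qv (K : Type) [Field K] (v : HeightOneSpectrum (𝓞 K)) : ℕ :=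
  Nat.card (𝓞 K ⧸ v.asIdeal)

/-- `a_v`, that is `q_v` minus the number of affine points of `y² = x³ + a x + b` modulo `v` -/
noncomputable def av (K : Type) [Field K] (a b : ℤ) (v : HeightOneSpectrum (𝓞 K)) : ℤ :=
  (qv K v : ℤ) - Nat.card {z : (𝓞 K ⧸ v.asIdeal) × (𝓞 K ⧸ v.asIdeal) //
    z.2 ^ 2 = z.1 ^ 3 + (a : 𝓞 K ⧸ v.asIdeal) * z.1 + (b : 𝓞 K ⧸ v.asIdeal)}

open Classical in
/-- `F` is entire and is, for `Re s > 3/2`, the `L`-function of `y² = x³ + a x + b` over `K` without the Euler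
factors at the places `v ∣ 2 (4 a³ + 27 b²) m` -/
def IsL (K : Type) [Field K] (a b m : ℤ) (F : ℂ → ℂ) : Prop :=
  Differentiable ℂ F ∧ ∀ s : ℂ, (3 : ℝ) / 2 < s.re →
    HasProd (fun v : HeightOneSpectrum (𝓞 K) =>
      if ((2 * (4 * a ^ 3 + 27 * b ^ 2) * m : ℤ) : 𝓞 K) ∈ v.asIdeal then 1 else
        (1 - (av K a b v : ℂ) * (qv K v : ℂ) ^ (-s) + (qv K v : ℂ) ^ (1 - 2 * s))⁻¹) (F s)

/-- rank zero and order zero for `y² = x³ + a x + b` over `K`, without the Euler factors at `v ∣ m` and at the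
places of bad reduction -/
def BSDZero (K : Type) [Field K] (a b m : ℤ) : Prop :=
  Finite (EK K a b) ∧ (∃ F : ℂ → ℂ, IsL K a b m F) ∧ ∀ F : ℂ → ℂ, IsL K a b m F → F 1 ≠ 0

open Classical in
/-- the number of the integers `M`, `|M| ≤ X`, with the property `P` -/
noncomputable def count (P : ℤ → Prop) (X : ℕ) : ℝ :=
  (((Finset.Icc (-(X : ℤ)) X).filter P).card : ℝ)

/-- the constant `η` -/
noncomputable def eta : ℝ := ∏' i : ℕ, (1 - (1 / 2 : ℝ) ^ (i + 1))

section proof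

open Pool.Agent.NH4 Pool.Agent.NH20.XM
open Pool.Agent.XV.T (RZ)
open Pool.Agent.X24.F (RZ24)

theorem rankZero_iff (a b : ℤ) : RankZeroShaTwo a b ↔
    Finite (Pool.Agent.Z702.sh a b).toAffine.Point ∧
      ∀ x : Pool.Agent.TH841.SH.D.Sha (Pool.Agent.Z702.sh a b), x + x = 0 → x = 0 := by
  unfold RankZeroShaTwo
  refine and_congr Iff.rfl (forall_congr' fun x => ?_)
  rw [two_nsmul]
  rfl

theorem in_cm {D : ℤ} : InClass D ↔ CM D := by
  unfold InClass CM
  tauto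

theorem noFour_iff (D : ℤ) : NoFour D ↔ XR.NoFour D :=
  ⟨fun h K _ _ h1 h2 => h K ⟨h1, h2⟩, fun h K _ _ h1 => h K h1.1 h1.2⟩

theorem r15_iff {D : ℤ} (hD : CM D) : RankZeroShaTwo (A15 D) (B15 D) ↔ Q.Gs (PF.pf D) :=
  (rankZero_iff _ _).trans (Q.rz15_iff hD)

theorem r24_iff {D : ℤ} (hD : CM D) : RankZeroShaTwo (A24 D) (B24 D) ↔ Q.Gs (PF.pf D) :=
  (rankZero_iff _ _).trans (Q.rz24_iff hD)

theorem gs_noFour {D : ℤ} (hD : CM D) : Q.Gs (PF.pf D) ↔ NoFour D := by
  rw [noFour_iff, ← kr_noFour hD.1 hD.2.1 (by have := hD.2.2; omega) (by have := hD.2.2; omega)]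
  exact nx_kr hD.1 hD.2.1 (by have := hD.2.2; omega)

theorem good_iff {n : ℕ} (M : ℤ) (d : Fin n → ℤ) :
    GoodPair M d ↔ (PF.Ind d ∧ Q.PG (fun _ => Q.Gs) (XF.gT d) M) := by
  refine and_congr Iff.rfl (forall_congr' fun T => ?_)
  unfold Q.UpB
  refine exists_congr fun D => exists_congr fun k => ?_
  unfold Good
  constructor
  · rintro ⟨⟨h1, h2, -⟩, h3, h4⟩
    have hD := in_cm.1 h1
    exact ⟨hD, (r15_iff hD).1 h2, h3, h4⟩
  · rintro ⟨h1, h2, h3, h4⟩
    exact ⟨⟨in_cm.2 h1, (r15_iff h1).2 h2, (r24_iff h1).2 h2⟩, h3, h4⟩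

theorem isL_iff (K : Type) [Field K] [NumberField K] (a b m : ℤ) (F : ℂ → ℂ) :
    IsL K a b m F ↔ Y19.QT.IsLFunK K a b m F := Iff.rfl

theorem bsd_of {a b : ℤ} (hab : 4 * a ^ 3 + 27 * b ^ 2 ≠ 0)
    (hz : ∀ D : ℤ, CM D → Q.Gs (PF.pf D) → Pool.Agent.Y687.MQ.ZB (a * D ^ 2) (b * D ^ 3)) {n : ℕ}
    {M : ℤ} {d : Fin n → ℤ} (hd : GoodPair M d) (K : Type) [Field K] [NumberField K]
    (hK : IsMultiquadratic d K) : BSDZero K (a * M ^ 2) (b * M ^ 3) (∏ i, d i) := by
  obtain ⟨hind, hP⟩ := (good_iff M d).1 hd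
  obtain ⟨x, hx, hK⟩ := hK
  obtain ⟨⟨F, hF, hF1⟩, hfin⟩ := Q.field_zero hab hz hP hind K x hx hK
  refine ⟨hfin, ⟨F, (isL_iff K _ _ _ F).2 hF⟩, fun G hG => ?_⟩
  rw [Pool.Agent.Y687.MQ.isLFunK_unique ((isL_iff K _ _ _ G).1 hG) hF]
  exact hF1

theorem count_cz {P : ℤ → Prop} (h : ∀ M, P M → Squarefree M) (X : ℕ) : count P X = XF.cz P X := by
  unfold count XF.cz
  congr 2
  ext M
  simp only [Finset.mem_filter]
  exact and_congr_right fun _ => ⟨fun h1 => ⟨h M h1, h1⟩, fun h1 => h1.2⟩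

end proof

open Pool.Agent.NH4 Pool.Agent.NH20.XM in
/-- **Main theorem.** -/
theorem result :
    -- the criterion
    (∀ D : ℤ, InClass D → (RankZeroShaTwo (A15 D) (B15 D) ↔ NoFour D) ∧
      (RankZeroShaTwo (A24 D) (B24 D) ↔ NoFour D)) ∧
    -- both curves over multiquadratic fields
    (∀ (n : ℕ) (M : ℤ) (d : Fin n → ℤ), GoodPair M d →
      ∀ (K : Type) [Field K] [NumberField K], IsMultiquadratic d K →
      Module.finrank ℚ K = 2 ^ n ∧ BSDZero K (A15 M) (B15 M) (∏ i, d i) ∧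
      BSDZero K (A24 M) (B24 M) (∏ i, d i)) ∧
    (∀ (n : ℕ) (d : Fin n → ℤ), Indep d →
      (∀ i, 0 < d i ∧ Squarefree (d i) ∧ (d i % 120 = 1 ∨ d i % 120 = 49)) →
      Tendsto (fun X : ℕ => count (fun M => Squarefree M ∧ GoodPair M d) X / count InClass X)
        atTop (𝓝 (eta ^ 2 ^ n)) ∧
      Tendsto (fun X : ℕ => count (fun M => Squarefree M ∧ GoodPair M d) X / count Squarefree X) atTop
        (𝓝 (5 / 384 * eta ^ 2 ^ n))) ∧
    (∀ (n : ℕ) (M : ℤ) (d : Fin n → ℤ), GoodPair M d →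
      Tendsto (fun X : ℕ =>
        count (fun D => Squarefree D ∧ GoodPair M (Fin.snoc d D : Fin (n + 1) → ℤ)) X /
        count (fun D => Squarefree D ∧ 0 < D ∧ (D % 120 = 1 ∨ D % 120 = 49)) X) atTop
        (𝓝 (eta ^ 2 ^ n)) ∧
      Tendsto (fun X : ℕ =>
        count (fun D => Squarefree D ∧ GoodPair M (Fin.snoc d D : Fin (n + 1) → ℤ)) X /
        count Squarefree X) atTop (𝓝 (5 / 384 * eta ^ 2 ^ n))) ∧
    0.2887 < eta ∧ eta < 0.2888 := by
  classical
  refine ⟨fun D hD => ?_, fun n M d hd K _ _ hK => ?_, fun n d hd hA => ?_, fun n M d hd => ?_,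
    Pool.Agent.NH5.PR.t_ETA.2.2.2.1, Pool.Agent.NH5.PR.t_ETA.2.2.2.2⟩
  · have hD' := in_cm.1 hD
    exact ⟨(r15_iff hD').trans (gs_noFour hD'), (r24_iff hD').trans (gs_noFour hD')⟩
  · refine ⟨?_, bsd_of (by norm_num) (fun D => Q.zb15) hd K hK,
      bsd_of (by norm_num) (fun D => Q.zb24) hd K hK⟩
    obtain ⟨x, hx, hK⟩ := hK
    have := Pool.Agent.Y73.QMQ1.gal_of hx hK
    rw [← IsGalois.card_aut_eq_finrank]
    exact Pool.Agent.Y73.QMQ1.card_gal hd.1 hx hK
  · have g := Q.twists_z XG.f_XGDEN (d := d) hd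
      (fun i => ⟨d i, 1, hA i, one_ne_zero, by ring⟩)
    have e1 : ∀ X : ℕ, count (fun M => Squarefree M ∧ GoodPair M d) X =
        XF.cz (fun M => Q.PG (fun _ => Q.Gs) (XF.gT d) M) X := by
      intro X
      rw [count_cz (fun M hM => hM.1)]
      refine XF.cz_congr' (fun M hM => ?_) X
      rw [good_iff]
      exact ⟨fun h => h.2.2, fun h => ⟨hM, hd, h⟩⟩
    have e2 : ∀ X : ℕ, count InClass X = XF.cz (fun M => M < 0 ∧ (M % 120 = 13 ∨ M % 120 = 37)) X := by
      intro X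
      rw [count_cz (fun M hM => hM.1)]
      exact XF.cz_congr' (fun M hM => ⟨fun h => h.2, fun h => ⟨hM, h⟩⟩) X
    have e3 : ∀ X : ℕ, count Squarefree X = XF.cz (fun _ => True) X := by
      intro X
      rw [count_cz (fun M hM => hM)]
      exact XF.cz_congr' (fun M hM => ⟨fun h => trivial, fun h => hM⟩) X
    simp only [e1, e2, e3]
    exact g
  · obtain ⟨hind, hP⟩ := (good_iff M d).1 hd
    have g := Q.extensions_z XG.f_XGDEN hind hP
    have e1 : ∀ X : ℕ, count (fun D => Squarefree D ∧ GoodPair M (Fin.snoc d D : Fin (n + 1) → ℤ)) X =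
        XF.cz (fun D => PF.Ind (Fin.snoc d D : Fin (n + 1) → ℤ) ∧
          Q.PG (fun _ => Q.Gs) (XF.gT (Fin.snoc d D : Fin (n + 1) → ℤ)) M) X := by
      intro X
      rw [count_cz (fun M hM => hM.1)]
      refine XF.cz_congr' (fun D hD => ?_) X
      rw [good_iff]
      exact ⟨fun h => h.2, fun h => ⟨hD, h⟩⟩
    have e2 : ∀ X : ℕ, count (fun D => Squarefree D ∧ 0 < D ∧ (D % 120 = 1 ∨ D % 120 = 49)) X =
        XF.cz (fun M => 0 < M ∧ (M % 120 = 1 ∨ M % 120 = 49)) X := by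
      intro X
      rw [count_cz (fun M hM => hM.1)]
      exact XF.cz_congr' (fun M hM => ⟨fun h => h.2, fun h => ⟨hM, h⟩⟩) X
    have e3 : ∀ X : ℕ, count Squarefree X = XF.cz (fun _ => True) X := by
      intro X
      rw [count_cz (fun M hM => hM)]
      exact XF.cz_congr' (fun M hM => ⟨fun h => trivial, fun h => hM⟩) X
    simp only [e1, e2, e3]
    exact g

end Pool.Agent.Results.MP_ae0bd0_nt.TwoCurvesMultiquadratic
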